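import Pool.Agent.HEC.Stmts

/-!
# Row SGN of squad HEC
-/

set_option autoImplicit false

open Finset

namespace Pool.Agent.HEC.H7

theorem abs_sg (b : Bool) : |sg b| = 1 := by
  cases b <;> simp [sg]

theorem sgn : SgnStmt := by
  intro V _ S t f W hf ht
  classical
  have hsplit : ∑ v ∈ W, sg (t v) * bd f v
      = ∑ v ∈ W, ∑ w ∈ W, sg (t v) * f v w + ∑ v ∈ W, ∑ w ∈ Wᶜ, sg (t v) * f v w := by
    rw [← Finset.sum_add_distrib]
    refine Finset.sum_congr rfl fun v _ => ?_
    rw [Finset.sum_add_sum_compl W (fun w => sg (t v) * f v w), bd, Finset.mul_sum]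
  have hzero : ∑ v ∈ W, ∑ w ∈ W, sg (t v) * f v w = 0 := by
    have h1 : ∑ v ∈ W, ∑ w ∈ W, sg (t v) * f v w = - ∑ v ∈ W, ∑ w ∈ W, sg (t v) * f v w := by
      conv_lhs => rw [Finset.sum_comm]
      rw [← Finset.sum_neg_distrib]
      refine Finset.sum_congr rfl fun v _ => ?_
      rw [← Finset.sum_neg_distrib]
      refine Finset.sum_congr rfl fun w _ => ?_
      by_cases hvw : S.Adj v w
      · rw [ht v w hvw, hf.anti w v]
        ring
      · have h2 : ¬ S.Adj w v := fun h => hvw h.symm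
        rw [hf.supp v w hvw, hf.supp w v h2]
        ring
    omega
  have hcut : (cut S W : ℤ) = ∑ v ∈ W, ∑ w ∈ Wᶜ, (if S.Adj v w then (1 : ℤ) else 0) := by
    rw [← Finset.sum_product', Finset.sum_boole]
    simp only [cut, cnt]
    congr 1
    refine congrArg Finset.card ?_
    ext p
    simp only [Finset.mem_filter, Finset.mem_univ, true_and, Finset.mem_product, Finset.mem_compl]
    tauto
  rw [hsplit, hzero, zero_add, hcut]
  refine (Finset.abs_sum_le_sum_abs _ _).trans (Finset.sum_le_sum fun v _ => ?_)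
  refine (Finset.abs_sum_le_sum_abs _ _).trans (Finset.sum_le_sum fun w _ => ?_)
  rw [abs_mul, abs_sg, one_mul]
  by_cases hvw : S.Adj v w
  · rw [if_pos hvw]
    rcases hf.one v w hvw with h | h <;> rw [h] <;> simp
  · rw [if_neg hvw, hf.supp v w hvw]
    simp

end Pool.Agent.HEC.H7
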